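import Pool.Agent.MP305c6f.Defs
import Pool.Agent.MP305c6f.Proof

set_option autoImplicit false

namespace Pool.Agent.Results.MP_305c6f_lc.ExactValue

open Pool.Agent.MP305c6f

/-- `C_DS(n) = n - 1` for every `n ≥ 1`: the largest reset threshold of a synchronizing automaton
with `n` states (any finite nonempty alphabet) whose transition monoid lies in **DS** is `n - 1`. -/
theorem result (n : ℕ) (hn : 1 ≤ n) : IsGreatest (resetThresholdsDS n) (n - 1) :=
  main n hn

end Pool.Agent.Results.MP_305c6f_lc.ExactValue
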